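import Pool.Agent.BCS.Stmts

/-!
# Squad BCS, row GRN: Green's formula on the disc
-/

set_option autoImplicit false

noncomputable section

open scoped ContDiff Topology ComplexConjugate
open Set MeasureTheory

namespace Pool.Agent.BCS.H6

open Pool.Agent.BCS

/-- the point with the polar coordinates `p` -/
def E (p : ℝ × ℝ) : ℂ := (p.1 * Real.cos p.2) • (1 : ℂ) + (p.1 * Real.sin p.2) • Complex.I

theorem symm_eq (p : ℝ × ℝ) : Complex.polarCoord.symm p = E p := by
  rw [Complex.polarCoord_symm_apply]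
  unfold E
  simp only [Complex.real_smul, Complex.ofReal_mul]
  ring

theorem norm_E (p : ℝ × ℝ) : ‖E p‖ = |p.1| := by
  rw [← symm_eq, Complex.norm_polarCoord_symm]

theorem polar_int (h : ℂ → ℝ) :
    dI h = ∫ p in Icc ((0 : ℝ), -Real.pi) (1, Real.pi), p.1 * h (E p) := by
  have h1 : dI h = ∫ z, indicator (Metric.closedBall (0 : ℂ) 1) h z := by
    unfold dI
    rw [integral_indicator Metric.isClosed_closedBall.measurableSet]
  rw [h1, ← Complex.integral_comp_polarCoord_symm]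
  have h2 : ∀ p ∈ polarCoord.target,
      p.1 • indicator (Metric.closedBall (0 : ℂ) 1) h (Complex.polarCoord.symm p) =
        indicator (Iic (1 : ℝ) ×ˢ (univ : Set ℝ)) (fun p : ℝ × ℝ => p.1 * h (E p)) p := by
    intro p hp
    have hp0 : 0 < p.1 := hp.1
    rw [symm_eq]
    by_cases hle : p.1 ≤ 1
    · rw [indicator_of_mem, indicator_of_mem]
      · rfl
      · exact ⟨hle, mem_univ _⟩
      · rw [mem_closedBall_zero_iff, norm_E, abs_of_pos hp0]
        exact hle
    · rw [indicator_of_notMem, indicator_of_notMem]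
      · simp
      · intro hm
        exact hle hm.1
      · rw [mem_closedBall_zero_iff, norm_E, abs_of_pos hp0]
        exact hle
  rw [setIntegral_congr_fun polarCoord.open_target.measurableSet h2,
    setIntegral_indicator (measurableSet_Iic.prod MeasurableSet.univ)]
  refine setIntegral_congr_set ?_
  have h3 : polarCoord.target ∩ Iic (1 : ℝ) ×ˢ (univ : Set ℝ) =
      Ioc (0 : ℝ) 1 ×ˢ Ioo (-Real.pi) Real.pi := by
    ext p
    simp only [polarCoord_target, mem_inter_iff, mem_prod, mem_Ioi, mem_Iic, mem_univ, and_true,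
      mem_Ioc]
    tauto
  have h4 : Icc ((0 : ℝ), -Real.pi) (1, Real.pi) = Icc (0 : ℝ) 1 ×ˢ Icc (-Real.pi) Real.pi := by
    rw [Icc_prod_eq]
  rw [h3, h4]
  exact Measure.set_prod_ae_eq Ioc_ae_eq_Icc Ioo_ae_eq_Icc

theorem hX (p : ℝ × ℝ) : HasFDerivAt (fun p : ℝ × ℝ => p.1 * Real.cos p.2)
    (p.1 • (-(Real.sin p.2) • ContinuousLinearMap.snd ℝ ℝ ℝ) +
      Real.cos p.2 • ContinuousLinearMap.fst ℝ ℝ ℝ) p :=
  (ContinuousLinearMap.fst ℝ ℝ ℝ).hasFDerivAt.mul
    ((ContinuousLinearMap.snd ℝ ℝ ℝ).hasFDerivAt.cos)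

theorem hY (p : ℝ × ℝ) : HasFDerivAt (fun p : ℝ × ℝ => p.1 * Real.sin p.2)
    (p.1 • (Real.cos p.2 • ContinuousLinearMap.snd ℝ ℝ ℝ) +
      Real.sin p.2 • ContinuousLinearMap.fst ℝ ℝ ℝ) p :=
  (ContinuousLinearMap.fst ℝ ℝ ℝ).hasFDerivAt.mul
    ((ContinuousLinearMap.snd ℝ ℝ ℝ).hasFDerivAt.sin)

/-- the derivative of `E` -/
def E' (p : ℝ × ℝ) : ℝ × ℝ →L[ℝ] ℂ :=
  (p.1 • (-(Real.sin p.2) • ContinuousLinearMap.snd ℝ ℝ ℝ) +
      Real.cos p.2 • ContinuousLinearMap.fst ℝ ℝ ℝ).smulRight (1 : ℂ) +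
  (p.1 • (Real.cos p.2 • ContinuousLinearMap.snd ℝ ℝ ℝ) +
      Real.sin p.2 • ContinuousLinearMap.fst ℝ ℝ ℝ).smulRight Complex.I

theorem hE (p : ℝ × ℝ) : HasFDerivAt E (E' p) p :=
  ((hX p).smul_const (1 : ℂ)).add ((hY p).smul_const Complex.I)

theorem E'_fst (p : ℝ × ℝ) : E' p (1, 0) = Real.cos p.2 • (1 : ℂ) + Real.sin p.2 • Complex.I := by
  simp [E']

theorem E'_snd (p : ℝ × ℝ) :
    E' p (0, 1) = (-(p.1 * Real.sin p.2)) • (1 : ℂ) + (p.1 * Real.cos p.2) • Complex.I := by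
  simp [E']

theorem contE : Continuous E := by
  unfold E
  fun_prop

variable {g : ℂ → ℝ}

theorem hgE (hg : ContDiff ℝ 1 g) (p : ℝ × ℝ) :
    HasFDerivAt (fun p => g (E p)) ((fderiv ℝ g (E p)).comp (E' p)) p :=
  ((hg.differentiable (by norm_num)) (E p)).hasFDerivAt.comp p (hE p)

theorem Dfst (p : ℝ × ℝ) : (fderiv ℝ g (E p)).comp (E' p) (1, 0) =
    Real.cos p.2 * dx g (E p) + Real.sin p.2 * dy g (E p) := by
  rw [ContinuousLinearMap.comp_apply, E'_fst, map_add, map_smul, map_smul]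
  rfl

theorem Dsnd (p : ℝ × ℝ) : (fderiv ℝ g (E p)).comp (E' p) (0, 1) =
    -(p.1 * Real.sin p.2) * dx g (E p) + (p.1 * Real.cos p.2) * dy g (E p) := by
  rw [ContinuousLinearMap.comp_apply, E'_snd, map_add, map_smul, map_smul]
  rfl

theorem cont_dx (hg : ContDiff ℝ 1 g) : Continuous (dx g) := by
  unfold dx
  exact (hg.continuous_fderiv (by norm_num)).clm_apply continuous_const

theorem cont_dy (hg : ContDiff ℝ 1 g) : Continuous (dy g) := by
  unfold dy
  exact (hg.continuous_fderiv (by norm_num)).clm_apply continuous_const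

theorem hcos (p : ℝ × ℝ) : HasFDerivAt (fun p : ℝ × ℝ => Real.cos p.2)
    (-(Real.sin p.2) • ContinuousLinearMap.snd ℝ ℝ ℝ) p :=
  (ContinuousLinearMap.snd ℝ ℝ ℝ).hasFDerivAt.cos

theorem hsin (p : ℝ × ℝ) : HasFDerivAt (fun p : ℝ × ℝ => Real.sin p.2)
    (Real.cos p.2 • ContinuousLinearMap.snd ℝ ℝ ℝ) p :=
  (ContinuousLinearMap.snd ℝ ℝ ℝ).hasFDerivAt.sin

theorem E_circle (θ : ℝ) : E (1, θ) = cp θ := by
  unfold E cp
  rw [Complex.exp_mul_I]
  simp

theorem re_cp (θ : ℝ) : (cp θ).re = Real.cos θ := by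
  unfold cp
  rw [Complex.exp_ofReal_mul_I_re]

theorem im_cp (θ : ℝ) : (cp θ).im = Real.sin θ := by
  unfold cp
  rw [Complex.exp_ofReal_mul_I_im]

theorem per_cp (h : ℂ → ℝ) : Function.Periodic (fun θ => h (cp θ)) (2 * Real.pi) := by
  intro θ
  show h (cp (θ + 2 * Real.pi)) = h (cp θ)
  congr 1
  unfold cp
  push_cast
  rw [add_mul, Complex.exp_add, Complex.exp_two_pi_mul_I, mul_one]

theorem cI_shift (h : ℂ → ℝ) : (∫ θ in (-Real.pi)..Real.pi, h (cp θ)) = cI h := by
  have h1 := (per_cp h).intervalIntegral_add_eq (-Real.pi) 0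
  have h2 : -Real.pi + 2 * Real.pi = Real.pi := by ring
  rw [h2, zero_add] at h1
  exact h1

theorem greenX (hg : ContDiff ℝ 1 g) : dI (dx g) = cI (fun z => z.re * g z) := by
  have hpi := Real.pi_pos
  rw [polar_int]
  let f : ℝ × ℝ → ℝ := fun p => (p.1 * Real.cos p.2) * g (E p)
  let q : ℝ × ℝ → ℝ := fun p => -(Real.sin p.2 * g (E p))
  let f' : ℝ × ℝ → ℝ × ℝ →L[ℝ] ℝ := fun p => (p.1 * Real.cos p.2) • (fderiv ℝ g (E p)).comp (E' p)
    + g (E p) • (p.1 • (-(Real.sin p.2) • ContinuousLinearMap.snd ℝ ℝ ℝ) +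
      Real.cos p.2 • ContinuousLinearMap.fst ℝ ℝ ℝ)
  let q' : ℝ × ℝ → ℝ × ℝ →L[ℝ] ℝ := fun p => -(Real.sin p.2 • (fderiv ℝ g (E p)).comp (E' p)
    + g (E p) • (Real.cos p.2 • ContinuousLinearMap.snd ℝ ℝ ℝ))
  have hf : ∀ p, HasFDerivAt f (f' p) p := fun p => (hX p).mul (hgE hg p)
  have hq : ∀ p, HasFDerivAt q (q' p) p := fun p => ((hsin p).mul (hgE hg p)).neg
  have hs : ∀ p, f' p (1, 0) + q' p (0, 1) = p.1 * dx g (E p) := by
    intro p
    have e1 : f' p (1, 0) = (p.1 * Real.cos p.2) *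
        (Real.cos p.2 * dx g (E p) + Real.sin p.2 * dy g (E p)) + g (E p) * Real.cos p.2 := by
      rw [← Dfst]
      simp [f']
    have e2 : q' p (0, 1) = -(Real.sin p.2 *
        (-(p.1 * Real.sin p.2) * dx g (E p) + (p.1 * Real.cos p.2) * dy g (E p)) +
          g (E p) * Real.cos p.2) := by
      rw [← Dsnd]
      simp [q']
    rw [e1, e2]
    linear_combination (p.1 * dx g (E p)) * Real.sin_sq_add_cos_sq p.2
  have hcf : Continuous f := by
    have := hg.continuous
    have := contE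
    show Continuous fun p : ℝ × ℝ => (p.1 * Real.cos p.2) * g (E p)
    fun_prop
  have hcq : Continuous q := by
    have := hg.continuous
    have := contE
    show Continuous fun p : ℝ × ℝ => -(Real.sin p.2 * g (E p))
    fun_prop
  have hcs : Continuous fun p : ℝ × ℝ => p.1 * dx g (E p) :=
    continuous_fst.mul ((cont_dx hg).comp contE)
  have hdiv := integral_divergence_prod_Icc_of_hasFDerivAt_off_countable_of_le f q f' q'
    ((0 : ℝ), -Real.pi) (1, Real.pi) (by
      constructor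
      · show (0 : ℝ) ≤ 1
        norm_num
      · show -Real.pi ≤ Real.pi
        linarith) ∅ countable_empty hcf.continuousOn hcq.continuousOn
    (fun p _ => hf p) (fun p _ => hq p) (by
      simp only [hs]
      exact hcs.continuousOn.integrableOn_compact isCompact_Icc)
  simp only [hs] at hdiv
  rw [hdiv]
  have k1 : ∀ x : ℝ, q (x, Real.pi) = 0 := by
    intro x
    simp [q]
  have k2 : ∀ x : ℝ, q (x, -Real.pi) = 0 := by
    intro x
    simp [q]
  have k3 : ∀ y : ℝ, f ((0 : ℝ), y) = 0 := by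
    intro y
    simp [f]
  have k4 : ∀ y : ℝ, f ((1 : ℝ), y) = (cp y).re * g (cp y) := by
    intro y
    show (1 * Real.cos y) * g (E (1, y)) = _
    rw [E_circle, re_cp, one_mul]
  simp only [k1, k2, k3, k4, intervalIntegral.integral_zero, sub_zero, zero_add]
  exact cI_shift (fun z => z.re * g z)

theorem greenY (hg : ContDiff ℝ 1 g) : dI (dy g) = cI (fun z => z.im * g z) := by
  have hpi := Real.pi_pos
  rw [polar_int]
  let f : ℝ × ℝ → ℝ := fun p => (p.1 * Real.sin p.2) * g (E p)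
  let q : ℝ × ℝ → ℝ := fun p => Real.cos p.2 * g (E p)
  let f' : ℝ × ℝ → ℝ × ℝ →L[ℝ] ℝ := fun p => (p.1 * Real.sin p.2) • (fderiv ℝ g (E p)).comp (E' p)
    + g (E p) • (p.1 • (Real.cos p.2 • ContinuousLinearMap.snd ℝ ℝ ℝ) +
      Real.sin p.2 • ContinuousLinearMap.fst ℝ ℝ ℝ)
  let q' : ℝ × ℝ → ℝ × ℝ →L[ℝ] ℝ := fun p => Real.cos p.2 • (fderiv ℝ g (E p)).comp (E' p)
    + g (E p) • (-(Real.sin p.2) • ContinuousLinearMap.snd ℝ ℝ ℝ)
  have hf : ∀ p, HasFDerivAt f (f' p) p := fun p => (hY p).mul (hgE hg p)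
  have hq : ∀ p, HasFDerivAt q (q' p) p := fun p => (hcos p).mul (hgE hg p)
  have hs : ∀ p, f' p (1, 0) + q' p (0, 1) = p.1 * dy g (E p) := by
    intro p
    have e1 : f' p (1, 0) = (p.1 * Real.sin p.2) *
        (Real.cos p.2 * dx g (E p) + Real.sin p.2 * dy g (E p)) + g (E p) * Real.sin p.2 := by
      rw [← Dfst]
      simp [f']
    have e2 : q' p (0, 1) = Real.cos p.2 *
        (-(p.1 * Real.sin p.2) * dx g (E p) + (p.1 * Real.cos p.2) * dy g (E p)) -
          g (E p) * Real.sin p.2 := by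
      rw [← Dsnd]
      simp [q']
      ring
    rw [e1, e2]
    linear_combination (p.1 * dy g (E p)) * Real.sin_sq_add_cos_sq p.2
  have hcf : Continuous f := by
    have := hg.continuous
    have := contE
    show Continuous fun p : ℝ × ℝ => (p.1 * Real.sin p.2) * g (E p)
    fun_prop
  have hcq : Continuous q := by
    have := hg.continuous
    have := contE
    show Continuous fun p : ℝ × ℝ => Real.cos p.2 * g (E p)
    fun_prop
  have hcs : Continuous fun p : ℝ × ℝ => p.1 * dy g (E p) :=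
    continuous_fst.mul ((cont_dy hg).comp contE)
  have hdiv := integral_divergence_prod_Icc_of_hasFDerivAt_off_countable_of_le f q f' q'
    ((0 : ℝ), -Real.pi) (1, Real.pi) (by
      constructor
      · show (0 : ℝ) ≤ 1
        norm_num
      · show -Real.pi ≤ Real.pi
        linarith) ∅ countable_empty hcf.continuousOn hcq.continuousOn
    (fun p _ => hf p) (fun p _ => hq p) (by
      simp only [hs]
      exact hcs.continuousOn.integrableOn_compact isCompact_Icc)
  simp only [hs] at hdiv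
  rw [hdiv]
  have k1 : ∀ x : ℝ, q (x, Real.pi) = q (x, -Real.pi) := by
    intro x
    simp [q, E]
  have k3 : ∀ y : ℝ, f ((0 : ℝ), y) = 0 := by
    intro y
    simp [f]
  have k4 : ∀ y : ℝ, f ((1 : ℝ), y) = (cp y).im * g (cp y) := by
    intro y
    show (1 * Real.sin y) * g (E (1, y)) = _
    rw [E_circle, im_cp, one_mul]
  simp only [k1, k3, k4, intervalIntegral.integral_zero, sub_zero, sub_self, zero_add]
  exact cI_shift (fun z => z.im * g z)

theorem grn : GrnStmt := fun _ hg => ⟨greenX hg, greenY hg⟩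

end Pool.Agent.BCS.H6
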